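import Pool.Agent.H365.LS.Defs
import Pool.Agent.H365.LS.All
import Pool.Agent.H365.Bridge

/-!
# Project LS: the theorem, with the definitions of the hand-in
-/

set_option autoImplicit false

namespace Pool.Agent.H365.LS

open Pool.Agent.H365 (PropertyT Hyperlinear)

theorem full (p : ℕ) (hp : p.Prime) :
    ∃ (P : Type) (_ : Group P), Group.FG P ∧ PropertyT P ∧
      (∀ (K : Type) [Field K] [CharP K p], Pool.Agent.H365.LinearSofic K P) ∧
      Pool.Agent.H365.WeaklySofic P ∧ ¬ Hyperlinear P := by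
  obtain ⟨P, _, h1, h2, h3, h4, h5⟩ := main all p hp
  exact ⟨P, _, h1, Pool.Agent.H365.propertyT_iff.2 h2, h3, h4, h5⟩

end Pool.Agent.H365.LS
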